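import Mathlib
import Pool.Agent.J4H10.TV.Pred

/-!
# Tate cohomology of `σ`-fixed representations is admissible

Let `F` be a nonarchimedean local field whose residue characteristic is not `p`, let `G` be a
closed subgroup of `GL_n(F)` (for instance the group of `F`-points of a reductive group over `F`),
let `σ` be a continuous automorphism of `G` with `σ ^ p = 1`, let `k` be an algebraically closed
field of characteristic `p`, and let `ρ` be an irreducible admissible representation of `G` over
`k` with `ρ ≅ ρ ∘ σ`.  Then the action extends uniquely to the semidirect product with `⟨σ⟩`,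
and `T⁰(ρ)` and `T¹(ρ)` are admissible representations of `H = G^σ`.

The second part is the general statement for locally profinite groups.
-/

set_option autoImplicit false

namespace Pool.Agent.Results.MP_60b77b_nt.AdmissibleTate

open Pool.Agent.J4H10.TV ValuativeRel

universe u v w

theorem result (p : ℕ) [hp : Fact p.Prime] :
    (∀ (F : Type u) [Field F] [ValuativeRel F] [TopologicalSpace F]
        [IsNonarchimedeanLocalField F] (n : ℕ) (G : Subgroup (GL (Fin n) F)),
        (p : 𝓀[F]) ≠ 0 → IsClosed (G : Set (GL (Fin n) F)) → IrreducibleCase.{u, v, w} p G) ∧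
    (∀ (G : Type u) [Group G] [TopologicalSpace G] [IsTopologicalGroup G] [T2Space G]
        [TotallyDisconnectedSpace G], LocallyPrimeTo p G → GeneralCase.{u, v, w} p G) := by
  refine ⟨?_, ?_⟩
  · intro F _ _ _ _ n G hpF hG σ k _ _ _ V _ _ ρ hσ hσp hirr hadm hfix
    have h1 := t2_gl F n
    have h2 := td_gl F n
    have h3 : LocallyPrimeTo p G := locallyPrimeTo G hG p hp.out hpF
    refine ⟨exists_unique_extends p h3 σ hσ hσp ρ hirr hadm hfix, ?_⟩
    intro τ hτ
    exact tate_admissible p h3 σ hσ hσp ρ hadm τ hτ
  · intro G _ _ _ _ _ hG σ k _ _ V _ _ ρ hσ hσp hadm τ hτ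
    exact tate_admissible p hG σ hσ hσp ρ hadm τ hτ

end Pool.Agent.Results.MP_60b77b_nt.AdmissibleTate
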